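import Mathlib
import Pool.Agent.U839.Thin.Fin

set_option autoImplicit false

/-! # Random sets: finite sets of integers without chosen elements -/

open MeasureTheory ProbabilityTheory Filter Finset Topology

namespace Pool.Agent.U746.GM

variable {Ω : Type*} [MeasurableSpace Ω] {μ : Measure Ω} [IsProbabilityMeasure μ]

/-- the event that no element of the finite set `I` is chosen -/
def NN (E : ℕ → Set Ω) (I : Finset ℕ) : Set Ω := ⋂ m ∈ I, (E m)ᶜ

omit [MeasurableSpace Ω] in
theorem mem_NN {E : ℕ → Set Ω} {I : Finset ℕ} {ω : Ω} : ω ∈ NN E I ↔ ∀ m ∈ I, ω ∉ E m := by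
  unfold NN; simp

theorem NN_meas {E : ℕ → Set Ω} (hm : ∀ n, MeasurableSet (E n)) (I : Finset ℕ) :
    MeasurableSet (NN E I) :=
  Finset.measurableSet_biInter _ (fun m _ => (hm m).compl)

omit [IsProbabilityMeasure μ] in
theorem NN_prob {E : ℕ → Set Ω} (hE : iIndepSet E μ) (I : Finset ℕ) :
    μ (NN E I) = ∏ m ∈ I, μ (E m)ᶜ :=
  (Pool.Agent.U839.Thin.compl_indep hE).meas_biInter I

theorem NN_real {E : ℕ → Set Ω} (hm : ∀ n, MeasurableSet (E n)) (hE : iIndepSet E μ)
    (I : Finset ℕ) : μ.real (NN E I) = ∏ m ∈ I, (1 - μ.real (E m)) := by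
  rw [measureReal_def, NN_prob hE, ENNReal.toReal_prod]
  exact prod_congr rfl fun m _ => by rw [← measureReal_def, probReal_compl_eq_one_sub (hm m)]

theorem NN_indep {E : ℕ → Set Ω} (hm : ∀ n, MeasurableSet (E n)) (hE : iIndepSet E μ)
    (I : ℕ → Finset ℕ) (hd : Pairwise (Function.onFun Disjoint I)) :
    iIndepSet (fun n => NN E (I n)) μ := by
  classical
  rw [iIndepSet_iff_meas_biInter (fun n => NN_meas hm (I n))]
  intro s
  have h1 : (⋂ n ∈ s, NN E (I n)) = NN E (s.biUnion I) := by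
    ext ω
    simp only [Set.mem_iInter, mem_NN, Finset.mem_biUnion]
    constructor
    · rintro h m ⟨n, hn, hm⟩
      exact h n hn m hm
    · intro h n hn m hm
      exact h m ⟨n, hn, hm⟩
  rw [h1, NN_prob hE, prod_biUnion (fun i _ j _ hij => hd hij)]
  exact prod_congr rfl fun n _ => (NN_prob hE (I n)).symm

/-- second Borel–Cantelli lemma -/
theorem io {E : ℕ → Set Ω} (hm : ∀ n, MeasurableSet (E n)) (hE : iIndepSet E μ)
    (I : ℕ → Finset ℕ) (hd : Pairwise (Function.onFun Disjoint I))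
    (hdiv : ¬ Summable (fun n => ∏ m ∈ I n, (1 - μ.real (E m)))) :
    ∀ᵐ ω ∂μ, {n | ω ∈ NN E (I n)}.Infinite := by
  have h1 : ∑' n, μ (NN E (I n)) = ⊤ := by
    by_contra h
    apply hdiv
    have h2 := ENNReal.summable_toReal h
    refine h2.congr (fun n => ?_)
    rw [← NN_real hm hE, measureReal_def]
  have h2 := measure_limsup_eq_one (fun n => NN_meas hm (I n)) (NN_indep hm hE I hd) h1
  have h3 : ∀ᵐ ω ∂μ, ω ∈ limsup (fun n => NN E (I n)) atTop := by
    rw [ae_iff]
    have h4 : {ω | ω ∉ limsup (fun n => NN E (I n)) atTop} =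
        (limsup (fun n => NN E (I n)) atTop)ᶜ := rfl
    rw [h4, prob_compl_eq_zero_iff]
    · exact h2
    · exact MeasurableSet.measurableSet_limsup (fun n => NN_meas hm (I n))
  filter_upwards [h3] with ω hω
  rw [mem_limsup_iff_frequently_mem] at hω
  exact Nat.frequently_atTop_iff_infinite.1 hω

/-- first Borel–Cantelli lemma -/
theorem fo {E : ℕ → Set Ω} (hm : ∀ n, MeasurableSet (E n)) (hE : iIndepSet E μ)
    (I : ℕ → Finset ℕ)
    (hs : Summable (fun n => ∏ m ∈ I n, (1 - μ.real (E m)))) :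
    ∀ᵐ ω ∂μ, {n | ω ∈ NN E (I n)}.Finite := by
  apply ae_finite_setOf_mem
  have h1 : ∀ n, μ (NN E (I n)) = ENNReal.ofReal (∏ m ∈ I n, (1 - μ.real (E m))) := by
    intro n
    rw [← NN_real hm hE, measureReal_def, ENNReal.ofReal_toReal (measure_ne_top _ _)]
  simp only [h1]
  rw [← ENNReal.ofReal_tsum_of_nonneg _ hs]
  · exact ENNReal.ofReal_ne_top
  · intro n
    rw [← NN_real hm hE]
    exact measureReal_nonneg

/-- second Borel–Cantelli lemma for blocks which are disjoint from some point on -/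
theorem io' {E : ℕ → Set Ω} (hm : ∀ n, MeasurableSet (E n)) (hE : iIndepSet E μ)
    (I : ℕ → Finset ℕ) (n₀ : ℕ) (hd : ∀ a b, n₀ ≤ a → a < b → Disjoint (I a) (I b))
    (hdiv : ¬ Summable (fun n => ∏ m ∈ I n, (1 - μ.real (E m)))) :
    ∀ᵐ ω ∂μ, {n | ω ∈ NN E (I n)}.Infinite := by
  have h1 : ¬ Summable (fun n => ∏ m ∈ I (n + n₀), (1 - μ.real (E m))) := by
    intro h
    apply hdiv
    exact (summable_nat_add_iff n₀).1 h
  have h2 := io hm hE (fun n => I (n + n₀)) (by
    intro a b hab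
    show Disjoint (I (a + n₀)) (I (b + n₀))
    rcases Nat.lt_or_gt_of_ne hab with h | h
    · exact hd _ _ (by omega) (by omega)
    · exact (hd _ _ (by omega) (by omega)).symm) h1
  filter_upwards [h2] with ω hω
  intro hfin
  apply hω
  have h3 := hfin.preimage (f := fun n => n + n₀) (fun a _ b _ h => by simpa using h)
  exact h3

/-- large blocks of the sum -/
theorem not_summable (f : ℕ → ℝ) (hf : ∀ n, 0 ≤ f n)
    (h : ∀ K : ℝ, ∃ N : ℕ, K ≤ ∑ n ∈ Ioc N (2 * N), f n) : ¬ Summable f := by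
  intro hs
  obtain ⟨N, hN⟩ := h (∑' n, f n + 1)
  have := hs.sum_le_tsum (Ioc N (2 * N)) (fun n _ => hf n)
  linarith

end Pool.Agent.U746.GM
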