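import Mathlib
import Pool.Agent.Helper601.PNT
import Pool.Agent.U839.Sv.Fin

set_option autoImplicit false

/-! # Rough numbers in short initial segments -/

open Filter Finset Topology

namespace Pool.Agent.U746.GM

open Pool.Agent.U839.Sv (W)
open Pool.Agent.U839.Thin (tlog)

/-- `m` has no prime factor up to `t` -/
def Ro (t m : ℕ) : Prop := ∀ p, p.Prime → p ≤ t → ¬ p ∣ m

open Classical in
/-- positive integers up to `y` without prime factors up to `t` -/
theorem surv (t y : ℕ) (hy : y < (t + 1) ^ 3) :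
    ((Ioc 0 y).filter (fun m => Ro t m)).card ≤
      1 + y.primeCounting + (Nat.sqrt y).primeCounting * (y / (t + 1)).primeCounting := by
  obtain ⟨A, hA⟩ : ∃ A : Finset ℕ, A = (range (y + 1)).filter Nat.Prime := ⟨_, rfl⟩
  obtain ⟨B, hB⟩ : ∃ B : Finset ℕ, B = (range (Nat.sqrt y + 1)).filter Nat.Prime := ⟨_, rfl⟩
  obtain ⟨D, hD⟩ : ∃ D : Finset ℕ, D = (range (y / (t + 1) + 1)).filter Nat.Prime := ⟨_, rfl⟩
  have hsub : (Ioc 0 y).filter (fun m => Ro t m) ⊆
      ({1} ∪ A) ∪ (B ×ˢ D).image (fun x => x.1 * x.2) := by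
    intro m hm
    rw [mem_filter, mem_Ioc] at hm
    obtain ⟨⟨h0, h1⟩, h2⟩ := hm
    simp only [mem_union, mem_singleton, mem_image, mem_product, Prod.exists]
    by_cases hm1 : m = 1
    · left; left; exact hm1
    have hgt : ∀ q, q.Prime → q ∣ m → t + 1 ≤ q := by
      intro q hq hqm
      by_contra hlt
      exact h2 q hq (by omega) hqm
    obtain ⟨p, hp⟩ : ∃ p, p = m.minFac := ⟨_, rfl⟩
    have hpp : p.Prime := by rw [hp]; exact Nat.minFac_prime hm1
    have hpm : p ∣ m := by rw [hp]; exact Nat.minFac_dvd m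
    obtain ⟨q, hq⟩ := hpm
    have hq0 : 0 < q := by
      rcases Nat.eq_zero_or_pos q with h | h
      · rw [h] at hq; omega
      · exact h
    by_cases hq1 : q = 1
    · left; right
      rw [hA, mem_filter, mem_range]
      rw [hq1, mul_one] at hq
      exact ⟨by omega, by rw [hq]; exact hpp⟩
    · right
      have hqp : q.Prime := by
        by_contra hnp
        have hr : q.minFac.Prime := Nat.minFac_prime hq1
        obtain ⟨s, hs⟩ := Nat.minFac_dvd q
        have hs1 : s ≠ 1 := by
          intro h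
          rw [h, mul_one] at hs
          rw [hs] at hnp
          exact hnp hr
        have hs0 : s ≠ 0 := by
          intro h
          rw [h, mul_zero] at hs
          omega
        have hu : s.minFac.Prime := Nat.minFac_prime hs1
        have k1 : t + 1 ≤ p := hgt p hpp ⟨q, hq⟩
        have k2 : t + 1 ≤ q.minFac := hgt _ hr ((Nat.minFac_dvd q).trans ⟨p, by rw [hq, mul_comm]⟩)
        have k3 : t + 1 ≤ s := by
          refine le_trans (hgt _ hu ?_) (Nat.minFac_le (Nat.pos_of_ne_zero hs0))
          refine (Nat.minFac_dvd s).trans (Dvd.dvd.trans (?_ : s ∣ q) ⟨p, by rw [hq, mul_comm]⟩)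
          exact ⟨q.minFac, by rw [mul_comm]; exact hs⟩
        have k4 : (t + 1) ^ 3 ≤ m := by
          calc (t + 1) ^ 3 = (t + 1) * ((t + 1) * (t + 1)) := by ring
            _ ≤ p * (q.minFac * s) := Nat.mul_le_mul k1 (Nat.mul_le_mul k2 k3)
            _ = m := by rw [← hs, ← hq]
        omega
      have hpq : p ≤ q := by
        rw [hp]
        exact Nat.minFac_le_of_dvd hqp.two_le ⟨p, by rw [hq, mul_comm]⟩
      refine ⟨p, q, ⟨?_, ?_⟩, hq.symm⟩
      · rw [hB, mem_filter, mem_range]
        refine ⟨?_, hpp⟩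
        have : p ≤ Nat.sqrt y := by
          rw [Nat.le_sqrt]
          calc p * p ≤ p * q := Nat.mul_le_mul_left p hpq
            _ ≤ y := by rw [← hq]; exact h1
        omega
      · rw [hD, mem_filter, mem_range]
        refine ⟨?_, hqp⟩
        have : q ≤ y / (t + 1) := by
          rw [Nat.le_div_iff_mul_le (by omega)]
          calc q * (t + 1) ≤ q * p := Nat.mul_le_mul_left q (hgt p hpp ⟨q, hq⟩)
            _ = m := by rw [mul_comm]; exact hq.symm
            _ ≤ y := h1
        omega
  have hpc : ∀ n : ℕ, ((range (n + 1)).filter Nat.Prime).card = n.primeCounting := by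
    intro n
    rw [Nat.primeCounting, Nat.primeCounting', Nat.count_eq_card_filter_range]
  calc ((Ioc 0 y).filter (fun m => Ro t m)).card
      ≤ (({1} ∪ A) ∪ (B ×ˢ D).image (fun x => x.1 * x.2)).card := card_le_card hsub
    _ ≤ (({1} ∪ A : Finset ℕ)).card + ((B ×ˢ D).image (fun x => x.1 * x.2)).card := card_union_le _ _
    _ ≤ (1 + A.card) + (B.card * D.card) := by
        apply Nat.add_le_add
        · exact (card_union_le _ _).trans (by simp)
        · exact card_image_le.trans (by rw [card_product])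
    _ = _ := by rw [hA, hB, hD, hpc, hpc, hpc]

theorem pc_tendsto : Tendsto (fun x : ℕ => (Nat.primeCounting x : ℝ) * Real.log x / x) atTop (𝓝 1) := by
  have h := Pool.Agent.Helper601.PNT.pi_tendsto.comp (tendsto_natCast_atTop_atTop (R := ℝ))
  refine h.congr fun X => ?_
  simp

/-- the prime number theorem along sequences of polynomial size in `L` -/
theorem pc_asym (x : ℕ → ℕ) (L : ℕ → ℝ) (hL : Tendsto L atTop atTop) (k : ℕ) (hk : 0 < k) (C : ℝ)
    (hC : 0 < C) (hx : Tendsto (fun N => (x N : ℝ) / L N ^ k) atTop (𝓝 C)) :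
    Tendsto (fun N => ((x N).primeCounting : ℝ) * Real.log (L N) / L N ^ k) atTop (𝓝 (C / k)) := by
  have hk0 : (0 : ℝ) < k := by exact_mod_cast hk
  have hLk : Tendsto (fun N => L N ^ k) atTop atTop := (tendsto_pow_atTop hk.ne').comp hL
  have hxr : Tendsto (fun N => (x N : ℝ)) atTop atTop := by
    have h1 := hx.pos_mul_atTop hC hLk
    refine h1.congr' ?_
    filter_upwards [hLk.eventually_gt_atTop 0] with N hN
    rw [div_mul_cancel₀ _ hN.ne']
  have hxn : Tendsto x atTop atTop := tendsto_natCast_atTop_iff.1 hxr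
  have h1 := pc_tendsto.comp hxn
  have hlogL : Tendsto (fun N => Real.log (L N)) atTop atTop := Real.tendsto_log_atTop.comp hL
  have h2 : Tendsto (fun N => Real.log (x N) / Real.log (L N)) atTop (𝓝 k) := by
    have h3 : Tendsto (fun N => Real.log ((x N : ℝ) / L N ^ k)) atTop (𝓝 (Real.log C)) :=
      (Real.continuousAt_log hC.ne').tendsto.comp hx
    have h4 : Tendsto (fun N => Real.log ((x N : ℝ) / L N ^ k) / Real.log (L N)) atTop (𝓝 0) :=
      h3.div_atTop hlogL
    have h5 := h4.add_const (k : ℝ)
    rw [zero_add] at h5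
    refine h5.congr' ?_
    filter_upwards [hL.eventually_gt_atTop 1, hxr.eventually_gt_atTop 0] with N g1 g2
    have g3 : 0 < Real.log (L N) := Real.log_pos g1
    have g4 : 0 < L N ^ k := by positivity
    rw [Real.log_div g2.ne' g4.ne', Real.log_pow]
    field_simp
    ring
  have h3 : Tendsto (fun N => Real.log (L N) / Real.log (x N)) atTop (𝓝 (k : ℝ)⁻¹) := by
    have := h2.inv₀ hk0.ne'
    refine this.congr fun N => ?_
    rw [inv_div]
  have h4 := (h1.mul hx).mul h3
  rw [one_mul, ← div_eq_mul_inv] at h4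
  refine h4.congr' ?_
  filter_upwards [hL.eventually_gt_atTop 1, hxr.eventually_gt_atTop 1] with N g1 g2
  have g3 : 0 < Real.log (L N) := Real.log_pos g1
  have g4 : 0 < L N ^ k := by positivity
  have g5 : 0 < Real.log (x N) := Real.log_pos g2
  simp only [Function.comp]
  field_simp

end Pool.Agent.U746.GM
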