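import Mathlib
import Pool.Agent.U746.GM.Surv

set_option autoImplicit false

/-! # Survivors of the sieve and weights: asymptotic bounds -/

open Filter Finset Topology

namespace Pool.Agent.U746.GM

open Pool.Agent.U839.Sv (W W_mono W_pos)
open Pool.Agent.U839.Thin (tlog)

open Classical in
theorem surv_asym (C θ : ℝ) (hC : 0 < C) (hθ : 0 < θ) (η : ℝ) (hη : 0 < η) : ∀ᶠ N : ℕ in atTop,
    (((Ioc 0 ⌊C * (Real.log N + 1) ^ 2⌋₊).filter (fun m => Ro ⌊θ * Real.log N⌋₊ m)).card : ℝ) ≤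
      (C / 2 + η) * (Real.log N) ^ 2 / Real.log (Real.log N) := by
  obtain ⟨L, hLdef⟩ : ∃ L : ℕ → ℝ, L = fun N : ℕ => Real.log (N : ℝ) := ⟨_, rfl⟩
  have hL : Tendsto L atTop atTop := by rw [hLdef]; exact tlog
  obtain ⟨Y, hY⟩ : ∃ Y : ℕ → ℕ, Y = fun N => ⌊C * (L N + 1) ^ 2⌋₊ := ⟨_, rfl⟩
  obtain ⟨t, ht⟩ : ∃ t : ℕ → ℕ, t = fun N => ⌊θ * L N⌋₊ := ⟨_, rfl⟩
  have hLn : ∀ N : ℕ, Real.log (N : ℝ) = L N := fun N => by rw [hLdef]
  have hLi : Tendsto (fun N => (L N)⁻¹) atTop (𝓝 0) := tendsto_inv_atTop_zero.comp hL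
  have hlogL : Tendsto (fun N => Real.log (L N)) atTop atTop := Real.tendsto_log_atTop.comp hL
  have h1 : Tendsto (fun N => (Y N : ℝ) / L N ^ 2) atTop (𝓝 C) := by
    have h2 : Tendsto (fun N => C * (1 + (L N)⁻¹) ^ 2) atTop (𝓝 (C * (1 + 0) ^ 2)) :=
      ((hLi.const_add 1).pow 2).const_mul C
    have h3 : Tendsto (fun N => C * (1 + (L N)⁻¹) ^ 2 - (L N)⁻¹ ^ 2) atTop
        (𝓝 (C * (1 + 0) ^ 2 - 0 ^ 2)) := h2.sub (hLi.pow 2)
    have e1 : C * (1 + 0) ^ 2 - 0 ^ 2 = C := by ring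
    have e2 : C * (1 + 0) ^ 2 = C := by ring
    rw [e1] at h3
    rw [e2] at h2
    refine tendsto_of_tendsto_of_tendsto_of_le_of_le' h3 h2 ?_ ?_
    · filter_upwards [hL.eventually_gt_atTop 0] with N g
      have g2 : C * (L N + 1) ^ 2 - 1 ≤ Y N := by rw [hY]; exact (Nat.sub_one_lt_floor _).le
      have g3 : 0 < L N ^ 2 := by positivity
      rw [le_div_iff₀ g3]
      have : (C * (1 + (L N)⁻¹) ^ 2 - (L N)⁻¹ ^ 2) * L N ^ 2 = C * (L N + 1) ^ 2 - 1 := by
        field_simp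
      linarith
    · filter_upwards [hL.eventually_gt_atTop 0] with N g
      have g2 : (Y N : ℝ) ≤ C * (L N + 1) ^ 2 := by rw [hY]; exact Nat.floor_le (by positivity)
      have g3 : 0 < L N ^ 2 := by positivity
      rw [div_le_iff₀ g3]
      have : (C * (1 + (L N)⁻¹) ^ 2) * L N ^ 2 = C * (L N + 1) ^ 2 := by
        field_simp
      linarith
  have h2 := pc_asym Y L hL 2 (by norm_num) C hC h1
  obtain ⟨K, hK⟩ : ∃ K : ℝ, K = 2 * Real.sqrt C + 4 * C / θ := ⟨_, rfl⟩
  have hK0 : 0 < K := by rw [hK]; positivity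
  obtain ⟨X, hX⟩ : ∃ X : ℕ → ℕ, X = fun N => ⌊K * L N⌋₊ := ⟨_, rfl⟩
  have h3 : Tendsto (fun N => (X N : ℝ) / L N ^ 1) atTop (𝓝 K) := by
    have h4 : Tendsto (fun N => K - (L N)⁻¹) atTop (𝓝 K) := by
      have := hLi.const_sub K
      rwa [sub_zero] at this
    refine tendsto_of_tendsto_of_tendsto_of_le_of_le' h4 tendsto_const_nhds ?_ ?_
    · filter_upwards [hL.eventually_gt_atTop 0] with N g
      have g2 : K * L N - 1 ≤ X N := by rw [hX]; exact (Nat.sub_one_lt_floor _).le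
      rw [pow_one, le_div_iff₀ g]
      have : (K - (L N)⁻¹) * L N = K * L N - 1 := by field_simp
      linarith
    · filter_upwards [hL.eventually_gt_atTop 0] with N g
      have g2 : (X N : ℝ) ≤ K * L N := by rw [hX]; exact Nat.floor_le (by positivity)
      rw [pow_one, div_le_iff₀ g]
      exact g2
  have h4 := pc_asym X L hL 1 (by norm_num) K hK0 h3
  have h5 : Tendsto (fun N => ((X N).primeCounting : ℝ) ^ 2 * Real.log (L N) / L N ^ 2) atTop (𝓝 0) := by
    have h6 := ((h4.pow 2).mul (tendsto_inv_atTop_zero.comp hlogL))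
    rw [mul_zero] at h6
    refine h6.congr' ?_
    filter_upwards [hL.eventually_gt_atTop 1] with N g
    have g3 : 0 < Real.log (L N) := Real.log_pos g
    have g4 : 0 < L N := by linarith
    simp only [Function.comp, pow_one]
    field_simp
  have h6 : Tendsto (fun N => Real.log (L N) / L N ^ 2) atTop (𝓝 0) := by
    have h7 : Tendsto (fun x : ℝ => Real.log x / x ^ 2) atTop (𝓝 0) := by
      have := isLittleO_log_rpow_atTop (r := 2) (by norm_num)
      refine (this.tendsto_div_nhds_zero).congr (fun x => ?_)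
      norm_num
    exact h7.comp hL
  have h7 := (h6.add h2).add h5
  rw [zero_add, add_zero] at h7
  have h8 := h7.eventually (gt_mem_nhds (show C / ((2 : ℕ) : ℝ) < C / 2 + η by push_cast; linarith))
  filter_upwards [h8, hL.eventually_gt_atTop 1, hL.eventually_gt_atTop (4 * C / θ ^ 3)] with N g1 g2 g3
  rw [hLn]
  have gY : (Y N : ℝ) ≤ 4 * C * L N ^ 2 := by
    have : (Y N : ℝ) ≤ C * (L N + 1) ^ 2 := by rw [hY]; exact Nat.floor_le (by positivity)
    nlinarith [mul_pos hC (show 0 < L N by linarith), sq_nonneg (L N - 1), mul_pos hC (show 0 < L N - 1 by linarith)]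
  have gt : θ * L N ≤ (t N : ℝ) + 1 := by rw [ht]; exact (Nat.lt_floor_add_one _).le
  have glog : 0 < Real.log (L N) := Real.log_pos g2
  have gL0 : 0 < L N := by linarith
  have hYt : Y N < (t N + 1) ^ 3 := by
    have k1 : (Y N : ℝ) < ((t N : ℝ) + 1) ^ 3 := by
      calc (Y N : ℝ) ≤ 4 * C * L N ^ 2 := gY
        _ < (θ * L N) ^ 3 := by
            rw [div_lt_iff₀ (by positivity)] at g3
            have : (θ * L N) ^ 3 = (L N * θ ^ 3) * L N ^ 2 := by ring
            rw [this]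
            apply mul_lt_mul_of_pos_right g3 (by positivity)
        _ ≤ ((t N : ℝ) + 1) ^ 3 := pow_le_pow_left₀ (by positivity) gt 3
    exact_mod_cast k1
  have k2 := surv (t N) (Y N) hYt
  have hset : (Ioc 0 ⌊C * (L N + 1) ^ 2⌋₊).filter (fun m => Ro ⌊θ * L N⌋₊ m) =
      (Ioc 0 (Y N)).filter (fun m => Ro (t N) m) := by rw [hY, ht]
  rw [hset]
  have k3 : Nat.sqrt (Y N) ≤ X N := by
    rw [hX]
    apply Nat.le_floor
    have : ((Nat.sqrt (Y N) : ℕ) : ℝ) ^ 2 ≤ (2 * Real.sqrt C * L N) ^ 2 := by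
      calc ((Nat.sqrt (Y N) : ℕ) : ℝ) ^ 2 ≤ (Y N : ℝ) := by exact_mod_cast Nat.sqrt_le' (Y N)
        _ ≤ 4 * C * L N ^ 2 := gY
        _ = (2 * Real.sqrt C * L N) ^ 2 := by
            rw [mul_pow, mul_pow, Real.sq_sqrt hC.le]; ring
    have k4 := abs_le_of_sq_le_sq this (by positivity)
    have k5 := (le_abs_self _).trans k4
    refine k5.trans ?_
    apply mul_le_mul_of_nonneg_right _ gL0.le
    rw [hK]
    have : 0 < 4 * C / θ := by positivity
    linarith
  have k4 : Y N / (t N + 1) ≤ X N := by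
    rw [hX]
    apply Nat.le_floor
    calc ((Y N / (t N + 1) : ℕ) : ℝ) ≤ (Y N : ℝ) / ((t N + 1 : ℕ) : ℝ) := Nat.cast_div_le
      _ ≤ (4 * C * L N ^ 2) / (θ * L N) := by
          push_cast
          gcongr
      _ = 4 * C / θ * L N := by field_simp
      _ ≤ K * L N := by
          apply mul_le_mul_of_nonneg_right _ gL0.le
          rw [hK]
          have : 0 ≤ 2 * Real.sqrt C := by positivity
          linarith
  have k5 : (((Ioc 0 (Y N)).filter (fun m => Ro (t N) m)).card : ℝ) ≤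
      1 + ((Y N).primeCounting : ℝ) + ((X N).primeCounting : ℝ) ^ 2 := by
    have k6 : (Nat.sqrt (Y N)).primeCounting * (Y N / (t N + 1)).primeCounting ≤
        (X N).primeCounting ^ 2 := by
      rw [sq]
      exact Nat.mul_le_mul (Nat.monotone_primeCounting k3) (Nat.monotone_primeCounting k4)
    have k7 : ((Ioc 0 (Y N)).filter (fun m => Ro (t N) m)).card ≤
        1 + (Y N).primeCounting + (X N).primeCounting ^ 2 := k2.trans (by omega)
    exact_mod_cast k7
  refine k5.trans ?_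
  rw [le_div_iff₀ glog]
  have g4 : 0 < L N ^ 2 := by positivity
  have g5 : Real.log (L N) / L N ^ 2 + ((Y N).primeCounting : ℝ) * Real.log (L N) / L N ^ 2 +
      ((X N).primeCounting : ℝ) ^ 2 * Real.log (L N) / L N ^ 2 =
      ((1 + ((Y N).primeCounting : ℝ) + ((X N).primeCounting : ℝ) ^ 2) * Real.log (L N)) / L N ^ 2 := by
    ring
  rw [g5, div_lt_iff₀ g4] at g1
  exact g1.le

/-- Mertens' bound for the weights -/
theorem weight_asym (η : ℝ) (hη : 0 < η) : ∀ᶠ N : ℕ in atTop,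
    W ⌊(3 * Real.log N) ^ (1 + η)⌋₊ ≤
      (Real.exp Real.eulerMascheroniConstant + η) * (1 + η) ^ 2 * Real.log (Real.log N) := by
  have h := Pool.Agent.H305R2.mertens_three
  have h0 : ∀ N : ℕ, (∏ p ∈ (Finset.Icc 1 N).filter Nat.Prime, (1 - (p : ℝ)⁻¹)⁻¹) = W N := by
    intro N
    unfold W
    simp only [one_div]
  simp only [h0] at h
  have h1 : ∀ᶠ N : ℕ in atTop, W N / Real.log N < Real.exp Real.eulerMascheroniConstant + η :=
    h.eventually (gt_mem_nhds (by linarith))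
  have h2 : Tendsto (fun N : ℕ => ⌊(3 * Real.log (N : ℝ)) ^ (1 + η)⌋₊) atTop atTop := by
    apply tendsto_nat_floor_atTop.comp
    apply (tendsto_rpow_atTop (by linarith : (0 : ℝ) < 1 + η)).comp
    exact tlog.const_mul_atTop (by norm_num)
  filter_upwards [h2.eventually (h1.and (tlog.eventually_gt_atTop 0)), tlog.eventually_gt_atTop 1,
    (Real.tendsto_log_atTop.comp tlog).eventually_gt_atTop (Real.log 3 / η)] with N g1 g2 g3
  obtain ⟨g1, g4⟩ := g1
  rw [div_lt_iff₀ g4] at g1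
  have g5 : 0 < Real.log (Real.log N) := Real.log_pos g2
  simp only [Function.comp] at g3
  rw [div_lt_iff₀ hη] at g3
  have g6 : Real.log ((⌊(3 * Real.log (N : ℝ)) ^ (1 + η)⌋₊ : ℕ) : ℝ) ≤
      (1 + η) * (Real.log 3 + Real.log (Real.log N)) := by
    have k1 : ((⌊(3 * Real.log (N : ℝ)) ^ (1 + η)⌋₊ : ℕ) : ℝ) ≤ (3 * Real.log (N : ℝ)) ^ (1 + η) :=
      Nat.floor_le (by positivity)
    have k2 : 0 < ((⌊(3 * Real.log (N : ℝ)) ^ (1 + η)⌋₊ : ℕ) : ℝ) := by
      by_contra hcon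
      have : ((⌊(3 * Real.log (N : ℝ)) ^ (1 + η)⌋₊ : ℕ) : ℝ) = 0 :=
        le_antisymm (not_lt.1 hcon) (Nat.cast_nonneg _)
      rw [this, Real.log_zero] at g4
      exact lt_irrefl _ g4
    calc Real.log ((⌊(3 * Real.log (N : ℝ)) ^ (1 + η)⌋₊ : ℕ) : ℝ)
        ≤ Real.log ((3 * Real.log (N : ℝ)) ^ (1 + η)) := Real.log_le_log k2 k1
      _ = (1 + η) * Real.log (3 * Real.log (N : ℝ)) := Real.log_rpow (by positivity) _
      _ = (1 + η) * (Real.log 3 + Real.log (Real.log N)) := by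
          rw [Real.log_mul (by norm_num) (by linarith)]
  have g7 : Real.log 3 + Real.log (Real.log N) ≤ (1 + η) * Real.log (Real.log N) := by linarith
  have hc : 0 < Real.exp Real.eulerMascheroniConstant + η := by positivity
  calc W ⌊(3 * Real.log N) ^ (1 + η)⌋₊ ≤ (Real.exp Real.eulerMascheroniConstant + η) *
        Real.log ((⌊(3 * Real.log (N : ℝ)) ^ (1 + η)⌋₊ : ℕ) : ℝ) := g1.le
    _ ≤ (Real.exp Real.eulerMascheroniConstant + η) *
        ((1 + η) * ((1 + η) * Real.log (Real.log N))) := by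
        apply mul_le_mul_of_nonneg_left _ hc.le
        refine g6.trans ?_
        apply mul_le_mul_of_nonneg_left g7 (by linarith)
    _ = _ := by ring

end Pool.Agent.U746.GM
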