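import Mathlib
import Pool.Agent.U746.GM.Asym

set_option autoImplicit false

/-! # Blocks behind squares in sieved random models -/

open Filter Finset Topology

namespace Pool.Agent.U746.GM

open Pool.Agent.U839.Sv (W W_mono W_pos fT fT_nonneg fT_le log_sq_small regular wn rho_small)
open Pool.Agent.U839.Thin (tlog one_sub_ge)

/-- the integers in `(n², n² + C (log n)²]` -/
noncomputable def blk (C : ℝ) (n : ℕ) : Finset ℕ := Ioc (n ^ 2) (n ^ 2 + ⌊C * (Real.log n) ^ 2⌋₊)

theorem mem_blk {C : ℝ} {n m : ℕ} :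
    m ∈ blk C n ↔ n ^ 2 < m ∧ (m : ℝ) ≤ (n : ℝ) ^ 2 + C * (Real.log n) ^ 2 := by
  unfold blk
  rw [mem_Ioc]
  constructor
  · rintro ⟨h1, h2⟩
    refine ⟨h1, ?_⟩
    have h3 : m - n ^ 2 ≤ ⌊C * (Real.log n) ^ 2⌋₊ := by omega
    rw [Nat.le_floor_iff' (by omega)] at h3
    rw [Nat.cast_sub h1.le] at h3
    push_cast at h3
    linarith
  · rintro ⟨h1, h2⟩
    refine ⟨h1, ?_⟩
    have h3 : m - n ^ 2 ≤ ⌊C * (Real.log n) ^ 2⌋₊ := by
      rw [Nat.le_floor_iff' (by omega), Nat.cast_sub h1.le]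
      push_cast
      linarith
    omega

theorem blk_disj (C : ℝ) (hC : 0 < C) : ∃ n₀ : ℕ, ∀ a b, n₀ ≤ a → a < b →
    Disjoint (blk C a) (blk C b) := by
  obtain ⟨n₀, hn₀⟩ := eventually_atTop.1 (log_sq_small C 1 hC one_pos)
  refine ⟨n₀, fun a b ha hab => ?_⟩
  rw [Finset.disjoint_left]
  intro m h1 h2
  rw [mem_blk] at h1 h2
  have h3 := hn₀ a ha
  rw [Real.rpow_one] at h3
  have h4 : ((a + 1 : ℕ) : ℝ) ^ 2 ≤ (b : ℝ) ^ 2 := by
    have : ((a + 1 : ℕ) : ℝ) ≤ b := by exact_mod_cast hab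
    exact pow_le_pow_left₀ (Nat.cast_nonneg _) this 2
  have h5 : (b : ℝ) ^ 2 < m := by exact_mod_cast h2.1
  push_cast at h4
  have h6 : (0 : ℝ) ≤ a := Nat.cast_nonneg a
  nlinarith [h1.2]

theorem prod_low (q : ℕ → ℝ) (I S : Finset ℕ) (p : ℝ) (h0 : 0 ≤ p) (h1 : p ≤ 1 / 2)
    (hS : ∀ m ∈ I, m ∉ S → q m = 0) (hq : ∀ m ∈ I, 0 ≤ q m ∧ q m ≤ p) :
    Real.exp (-((p + 2 * p ^ 2) * (S.card : ℝ))) ≤ ∏ m ∈ I, (1 - q m) := by
  classical
  have e1 : ∏ m ∈ I, (1 - q m) = ∏ m ∈ I ∩ S, (1 - q m) := by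
    symm
    apply prod_subset inter_subset_left
    intro m hm hm2
    rw [hS m hm (fun h => hm2 (mem_inter.2 ⟨hm, h⟩))]
    ring
  rw [e1]
  have e2 : Real.exp (-(p + 2 * p ^ 2)) ^ (I ∩ S).card ≤ ∏ m ∈ I ∩ S, (1 - q m) := by
    rw [← prod_const]
    apply Finset.prod_le_prod
    · intro _ _; positivity
    · intro m hm
      obtain ⟨k1, k2⟩ := hq m (mem_inter.1 hm).1
      refine (one_sub_ge p h0 h1).trans (by linarith)
  refine le_trans ?_ e2
  rw [← Real.exp_nat_mul]
  apply Real.exp_le_exp.2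
  have h3 : ((I ∩ S).card : ℝ) ≤ S.card := by exact_mod_cast card_le_card inter_subset_right
  nlinarith [mul_le_mul_of_nonneg_left h3 (show 0 ≤ p + 2 * p ^ 2 by positivity)]

theorem exists_eta (C κ : ℝ) (hκ : C * Real.exp Real.eulerMascheroniConstant / 4 < κ) :
    ∃ η : ℝ, 0 < η ∧ η ≤ 1 ∧
      (C / 2 + η) * (Real.exp Real.eulerMascheroniConstant + η) * (1 + η) ^ 3 / 2 ≤ κ := by
  have hc : Tendsto (fun η : ℝ => (C / 2 + η) * (Real.exp Real.eulerMascheroniConstant + η) *
      (1 + η) ^ 3 / 2) (𝓝[>] 0) (𝓝 ((C / 2 + 0) * (Real.exp Real.eulerMascheroniConstant + 0) *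
      (1 + 0) ^ 3 / 2)) := by
    apply Tendsto.mono_left _ nhdsWithin_le_nhds
    have : Continuous (fun η : ℝ => (C / 2 + η) * (Real.exp Real.eulerMascheroniConstant + η) *
      (1 + η) ^ 3 / 2) := by fun_prop
    exact this.tendsto 0
  have h1 : (C / 2 + 0) * (Real.exp Real.eulerMascheroniConstant + 0) * (1 + 0) ^ 3 / 2 < κ := by
    have : (C / 2 + 0) * (Real.exp Real.eulerMascheroniConstant + 0) * (1 + 0) ^ 3 / 2 =
      C * Real.exp Real.eulerMascheroniConstant / 4 := by ring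
    rw [this]; exact hκ
  have h2 := hc.eventually (gt_mem_nhds h1)
  have h3 : ∀ᶠ η : ℝ in 𝓝[>] 0, η ∈ Set.Ioc (0 : ℝ) 1 :=
    Ioc_mem_nhdsGT one_pos
  obtain ⟨η, h4, h5⟩ := (h2.and h3).exists
  exact ⟨η, h5.1, h5.2, h4.le⟩

open Classical in
/-- the conditional block: `n` divisible by all primes up to `θ log N` -/
theorem block_low (q : ℕ → ℝ) (T : ℕ → ℕ) (c : ℝ) (hc : 0 < c)
    (hT1 : ∀ᶠ n : ℕ in atTop, c * Real.log n ≤ T n)
    (hT2 : ∀ ε : ℝ, 0 < ε → ∀ᶠ n : ℕ in atTop, (T n : ℝ) ≤ (Real.log n) ^ (1 + ε))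
    (hq : ∀ m : ℕ, q m = min 1 (fT T m / Real.log m)) (C : ℝ) (hC : 0 < C) (κ : ℝ)
    (hκ : C * Real.exp Real.eulerMascheroniConstant / 4 < κ) (θ : ℝ) (hθ : 0 < θ) (hθc : θ ≤ c) :
    ∀ᶠ N : ℕ in atTop, ∀ n : ℕ, N < n → n ≤ 2 * N → primorial ⌊θ * Real.log N⌋₊ ∣ n →
      Real.exp (-(κ * Real.log N)) ≤ ∏ m ∈ blk C n, (1 - q m) := by
  obtain ⟨η, hη, hη1, hηκ⟩ := exists_eta C κ hκ
  obtain ⟨A, hA⟩ : ∃ A : ℝ, A = (Real.exp Real.eulerMascheroniConstant + η) * (1 + η) ^ 2 := ⟨_, rfl⟩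
  have hA0 : 0 < A := by rw [hA]; positivity
  have hps : Tendsto (fun N : ℕ => A * Real.log (Real.log N) / (2 * Real.log N)) atTop (𝓝 0) := by
    have h7 : Tendsto (fun x : ℝ => Real.log x / x) atTop (𝓝 0) := by
      have := isLittleO_log_rpow_atTop (r := 1) (by norm_num)
      refine (this.tendsto_div_nhds_zero).congr (fun x => ?_)
      rw [Real.rpow_one]
    have h8 := (h7.comp tlog).const_mul (A / 2)
    rw [mul_zero] at h8
    refine h8.congr (fun N => ?_)
    simp only [Function.comp]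
    ring
  obtain ⟨n1, hn1⟩ := eventually_atTop.1 hT1
  obtain ⟨n2, hn2⟩ := eventually_atTop.1 (hT2 η hη)
  filter_upwards [surv_asym C θ hC hθ η hη, weight_asym η hη,
    hps.eventually (gt_mem_nhds (show (0 : ℝ) < η / 2 by linarith)),
    tlog.eventually_gt_atTop 2, eventually_ge_atTop (max n1 n2),
    log_sq_small (4 * C) 2 (by linarith) (by norm_num)] with N g1 g2 g3 g4 g5 g6
  intro n hn hn' hdvd
  obtain ⟨L, hL⟩ : ∃ L, L = Real.log (N : ℝ) := ⟨_, rfl⟩
  obtain ⟨t, ht⟩ : ∃ t, t = ⌊θ * Real.log (N : ℝ)⌋₊ := ⟨_, rfl⟩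
  obtain ⟨z, hz⟩ : ∃ z, z = ⌊(3 * Real.log (N : ℝ)) ^ (1 + η)⌋₊ := ⟨_, rfl⟩
  obtain ⟨Y, hY⟩ : ∃ Y, Y = ⌊C * (Real.log (N : ℝ) + 1) ^ 2⌋₊ := ⟨_, rfl⟩
  rw [← hY, ← ht] at g1
  rw [← hz, ← hA] at g2
  rw [← ht] at hdvd
  rw [← hL] at g1 g2 g3 g4 g6 ⊢
  have hN0 : 0 < N := by
    rcases Nat.eq_zero_or_pos N with h | h
    · rw [h] at hL
      simp at hL
      linarith
    · exact h
  have hNr : (0 : ℝ) < N := by exact_mod_cast hN0
  have hN1 : (1 : ℝ) ≤ N := by exact_mod_cast hN0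
  have hlogn : Real.log n ≤ L + 1 := by
    have h1 : (n : ℝ) ≤ 2 * N := by exact_mod_cast hn'
    have h2 : (0 : ℝ) < n := by exact_mod_cast (by omega : 0 < n)
    have h3 := Real.log_le_log h2 h1
    rw [Real.log_mul (by norm_num) hNr.ne', ← hL] at h3
    have := Real.log_two_lt_d9
    linarith
  have hlogn0 : 0 ≤ Real.log n := Real.log_natCast_nonneg n
  have hloglog : 0 < Real.log L := Real.log_pos (by linarith)
  have hL0 : 0 < L := by linarith
  have hYn : ⌊C * (Real.log n) ^ 2⌋₊ ≤ Y := by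
    rw [hY, ← hL]
    apply Nat.floor_le_floor
    gcongr
  -- size of the elements of the block
  have hsize : ∀ m ∈ blk C n, N ≤ m ∧ (m : ℝ) ≤ 5 * (N : ℝ) ^ 2 ∧ (N : ℝ) ^ 2 ≤ m := by
    intro m hm
    rw [mem_blk] at hm
    have h1 : (N : ℝ) ^ 2 ≤ m := by
      have h2 : N ^ 2 ≤ n ^ 2 := Nat.pow_le_pow_left hn.le 2
      have h3 : N ^ 2 ≤ m := h2.trans hm.1.le
      exact_mod_cast h3
    refine ⟨?_, ?_, h1⟩
    · have : (N : ℝ) ≤ m := le_trans (by nlinarith) h1
      exact_mod_cast this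
    · have h2 : (n : ℝ) ≤ 2 * N := by exact_mod_cast hn'
      have h3 : (n : ℝ) ^ 2 ≤ (2 * N) ^ 2 := pow_le_pow_left₀ (Nat.cast_nonneg n) h2 2
      have h4 : C * (Real.log n) ^ 2 ≤ C * (L + 1) ^ 2 := by gcongr
      have h5 : C * (L + 1) ^ 2 ≤ 4 * C * L ^ 2 := by
        have : (L + 1) ^ 2 ≤ 4 * L ^ 2 := by nlinarith
        nlinarith
      have h6 : (N : ℝ) ^ (2 : ℝ) = (N : ℝ) ^ 2 := by norm_cast
      rw [h6] at g6
      nlinarith [hm.2]
  have hp0 : 0 ≤ A * Real.log L / (2 * L) := by positivity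
  have hlow := prod_low q (blk C n) ((blk C n).filter (fun m => Ro t m)) (A * Real.log L / (2 * L))
    hp0 (by linarith) ?_ ?_
  · refine le_trans ?_ hlow
    apply Real.exp_le_exp.2
    apply neg_le_neg
    have hcard : (((blk C n).filter (fun m => Ro t m)).card : ℝ) ≤ (C / 2 + η) * L ^ 2 / Real.log L := by
      refine le_trans ?_ g1
      have : ((blk C n).filter (fun m => Ro t m)).card ≤ ((Ioc 0 Y).filter (fun m => Ro t m)).card := by
        apply card_le_card_of_injOn (fun m => m - n ^ 2)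
        · intro m hm
          rw [Finset.mem_coe, mem_filter] at hm
          obtain ⟨h1, h2⟩ := hm
          unfold blk at h1
          rw [mem_Ioc] at h1
          rw [Finset.mem_coe, mem_filter, mem_Ioc]
          have u1 : 0 < m - n ^ 2 := by omega
          have u2 : m - n ^ 2 ≤ Y := by omega
          refine ⟨⟨u1, u2⟩, ?_⟩
          intro p hp hpt hpm
          apply h2 p hp hpt
          have h3 : p ∣ n := dvd_trans ((hp.dvd_primorial_iff).2 hpt) hdvd
          have h4 : p ∣ n ^ 2 := dvd_pow h3 (by norm_num)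
          have h5 := dvd_add hpm h4
          rwa [Nat.sub_add_cancel h1.1.le] at h5
        · intro a ha b hb hab
          rw [Finset.mem_coe, mem_filter] at ha hb
          have h1 := (mem_blk.1 ha.1).1
          have h2 := (mem_blk.1 hb.1).1
          simp only at hab
          omega
      exact_mod_cast this
    have hfac : A * Real.log L / (2 * L) + 2 * (A * Real.log L / (2 * L)) ^ 2 ≤
        (1 + η) * (A * Real.log L / (2 * L)) := by nlinarith
    calc (A * Real.log L / (2 * L) + 2 * (A * Real.log L / (2 * L)) ^ 2) *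
          (((blk C n).filter (fun m => Ro t m)).card : ℝ)
        ≤ ((1 + η) * (A * Real.log L / (2 * L))) * ((C / 2 + η) * L ^ 2 / Real.log L) := by
          apply mul_le_mul hfac hcard (Nat.cast_nonneg _) (by positivity)
      _ = (C / 2 + η) * (Real.exp Real.eulerMascheroniConstant + η) * (1 + η) ^ 3 / 2 * L := by
          rw [hA]; field_simp
      _ ≤ κ * L := by
          apply mul_le_mul_of_nonneg_right hηκ hL0.le
  · intro m hm hmS
    rw [hq m]
    obtain ⟨s1, s2, s3⟩ := hsize m hm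
    have hnot : ¬ Ro t m := fun h => hmS (mem_filter.2 ⟨hm, h⟩)
    have hTt : t ≤ T m := by
      have h1 := hn1 m ((le_max_left _ _).trans (g5.trans s1))
      have h2 : 2 * L ≤ Real.log m := by
        have := Real.log_le_log (by positivity) s3
        rw [Real.log_pow, ← hL] at this
        push_cast at this
        exact this
      have h3 : (t : ℝ) ≤ θ * L := by rw [ht, ← hL]; exact Nat.floor_le (by positivity)
      have h4 : (t : ℝ) ≤ T m := by
        have h5 : θ * L ≤ c * L := by gcongr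
        have h6 : c * (2 * L) ≤ c * Real.log m := by gcongr
        have h7 : c * L ≤ c * (2 * L) := by nlinarith
        linarith
      exact_mod_cast h4
    have hf : fT T m = 0 := by
      unfold fT
      rw [if_neg]
      intro h
      exact hnot (fun p hp hpt => h p hp (hpt.trans hTt))
    rw [hf, zero_div]
    norm_num
  · intro m hm
    rw [hq m]
    obtain ⟨s1, s2, s3⟩ := hsize m hm
    have hlogm : 2 * L ≤ Real.log m := by
      have := Real.log_le_log (by positivity) s3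
      rw [Real.log_pow, ← hL] at this
      push_cast at this
      exact this
    have hlogm2 : Real.log m ≤ 3 * L + 1 := by
      have hm0 : (0 : ℝ) < m := lt_of_lt_of_le (by positivity) s3
      have := Real.log_le_log hm0 s2
      rw [Real.log_mul (by norm_num) (by positivity), Real.log_pow, ← hL] at this
      have h5 : Real.log 5 ≤ 2 := by
        rw [Real.log_le_iff_le_exp (by norm_num)]
        have := Real.exp_one_gt_d9
        have h2 : Real.exp 2 = Real.exp 1 * Real.exp 1 := by rw [← Real.exp_add]; norm_num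
        rw [h2]; nlinarith
      push_cast at this
      linarith
    have hlogm3 : Real.log m ≤ 3 * L := by
      have hm0 : (0 : ℝ) < m := lt_of_lt_of_le (by positivity) s3
      have := Real.log_le_log hm0 s2
      rw [Real.log_mul (by norm_num) (by positivity), Real.log_pow, ← hL] at this
      have h5 : Real.log 5 ≤ 2 := by
        rw [Real.log_le_iff_le_exp (by norm_num)]
        have := Real.exp_one_gt_d9
        have h2 : Real.exp 2 = Real.exp 1 * Real.exp 1 := by rw [← Real.exp_add]; norm_num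
        rw [h2]; nlinarith
      push_cast at this
      linarith
    refine ⟨le_min zero_le_one (div_nonneg (fT_nonneg T m) (by linarith)), ?_⟩
    refine (min_le_right _ _).trans ?_
    have hWz : W (T m) ≤ A * Real.log L := by
      refine (W_mono ?_).trans g2
      rw [hz, ← hL]
      apply Nat.le_floor
      have h1 := hn2 m ((le_max_right _ _).trans (g5.trans s1))
      refine h1.trans ?_
      apply Real.rpow_le_rpow (by linarith) hlogm3 (by linarith)
    calc fT T m / Real.log m ≤ (A * Real.log L) / (2 * L) := by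
          apply div_le_div₀ (by positivity) ((fT_le T m).trans hWz) (by linarith) hlogm
      _ = _ := rfl

end Pool.Agent.U746.GM
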