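import Mathlib
import Pool.Agent.U746.GM.Sq
import Pool.Agent.U746.GM.Prob

set_option autoImplicit false

/-! # Summability of the probabilities of empty blocks behind squares -/

open Filter Finset Topology

namespace Pool.Agent.U746.GM

open Pool.Agent.U839.Sv (W W_mono W_pos fT fT_nonneg fT_le log_sq_small regular wn rho_small dens sub_pow)
open Pool.Agent.U839.Thin (tlog one_sub_ge)

theorem q_le_one (q : ℕ → ℝ) (T : ℕ → ℕ) (hq : ∀ m : ℕ, q m = min 1 (fT T m / Real.log m)) (m : ℕ) :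
    0 ≤ q m ∧ q m ≤ 1 := by
  rw [hq m]
  exact ⟨le_min zero_le_one (div_nonneg (fT_nonneg T m) (Real.log_natCast_nonneg m)), min_le_left _ _⟩

theorem prod_nn (q : ℕ → ℝ) (h : ∀ m, q m ≤ 1) (I : Finset ℕ) : 0 ≤ ∏ m ∈ I, (1 - q m) :=
  prod_nonneg fun m _ => by linarith [h m]

/-- **The sieve up to `log n`**: the probabilities are not summable for `C < 4 e^(-γ)`. -/
theorem gran_div (q : ℕ → ℝ) (T : ℕ → ℕ) (c : ℝ) (hc : 0 < c)
    (hT1 : ∀ᶠ n : ℕ in atTop, c * Real.log n ≤ T n)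
    (hT2 : ∀ ε : ℝ, 0 < ε → ∀ᶠ n : ℕ in atTop, (T n : ℝ) ≤ (Real.log n) ^ (1 + ε))
    (hq : ∀ m : ℕ, q m = min 1 (fT T m / Real.log m)) (C : ℝ) (hC : 0 < C)
    (hC2 : C < 4 * Real.exp (-Real.eulerMascheroniConstant)) :
    ¬ Summable (fun n => ∏ m ∈ blk C n, (1 - q m)) := by
  have hκ0 : C * Real.exp Real.eulerMascheroniConstant / 4 < 1 := by
    rw [div_lt_one (by norm_num)]
    rw [Real.exp_neg] at hC2
    have he := Real.exp_pos Real.eulerMascheroniConstant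
    have := mul_lt_mul_of_pos_right hC2 he
    rwa [mul_assoc, inv_mul_cancel₀ he.ne', mul_one] at this
  obtain ⟨κ, hκ1, hκ2⟩ := exists_between hκ0
  have hκpos : 0 < κ := lt_trans (by positivity) hκ1
  obtain ⟨θ, hθ⟩ : ∃ θ : ℝ, θ = min c ((1 - κ) / 4) := ⟨_, rfl⟩
  have hθ0 : 0 < θ := by rw [hθ]; exact lt_min hc (by linarith)
  have hθc : θ ≤ c := by rw [hθ]; exact min_le_left _ _
  have hθκ : θ ≤ (1 - κ) / 4 := by rw [hθ]; exact min_le_right _ _
  apply not_summable _ (fun n => prod_nn q (fun m => (q_le_one q T hq m).2) _)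
  intro K
  have h1 := block_low q T c hc hT1 hT2 hq C hC κ hκ1 θ hθ0 hθc
  have h2 : Tendsto (fun N : ℕ => Real.exp ((1 - κ) / 2 * Real.log N)) atTop atTop :=
    Real.tendsto_exp_atTop.comp (tlog.const_mul_atTop (by linarith))
  obtain ⟨N, g1, g2, g3⟩ := (h1.and ((h2.eventually_ge_atTop (K + 1)).and
    (tlog.eventually_gt_atTop 1))).exists
  refine ⟨N, ?_⟩
  obtain ⟨L, hL⟩ : ∃ L, L = Real.log (N : ℝ) := ⟨_, rfl⟩
  obtain ⟨M, hM⟩ : ∃ M, M = primorial ⌊θ * Real.log (N : ℝ)⌋₊ := ⟨_, rfl⟩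
  rw [← hM] at g1
  rw [← hL] at g1 g2 g3
  have hN0 : 0 < N := by
    rcases Nat.eq_zero_or_pos N with h | h
    · rw [h] at hL; simp at hL; linarith
    · exact h
  have hNr : (0 : ℝ) < N := by exact_mod_cast hN0
  have hM0 : 0 < M := by rw [hM]; exact primorial_pos _
  have hMr : (0 : ℝ) < M := by exact_mod_cast hM0
  have hMle : (M : ℝ) ≤ Real.exp ((1 - κ) / 2 * L) := by
    have k1 : (M : ℝ) ≤ (4 : ℝ) ^ ⌊θ * Real.log (N : ℝ)⌋₊ := by
      rw [hM]; exact_mod_cast primorial_le_four_pow _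
    have k2 : (⌊θ * Real.log (N : ℝ)⌋₊ : ℝ) ≤ θ * L := by
      rw [← hL]; exact Nat.floor_le (by positivity)
    have k3 : (4 : ℝ) ^ ⌊θ * Real.log (N : ℝ)⌋₊ = Real.exp (Real.log 4 * ⌊θ * Real.log (N : ℝ)⌋₊) := by
      rw [← Real.rpow_natCast, Real.rpow_def_of_pos (by norm_num)]
    have k4 : Real.log 4 ≤ 2 := by
      have h5 : Real.log 4 = 2 * Real.log 2 := by
        rw [← Real.log_rpow (by norm_num)]
        norm_num
      have := Real.log_two_lt_d9
      linarith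
    have k5 : 0 ≤ Real.log 4 := Real.log_nonneg (by norm_num)
    refine k1.trans ?_
    rw [k3]
    apply Real.exp_le_exp.2
    calc Real.log 4 * ⌊θ * Real.log (N : ℝ)⌋₊ ≤ 2 * (θ * L) := by gcongr
      _ ≤ 2 * ((1 - κ) / 4 * L) := by gcongr
      _ = (1 - κ) / 2 * L := by ring
  have hsub : (Ioc (N / M) (2 * N / M)).image (fun k => M * k) ⊆ Ioc N (2 * N) := by
    intro n hn
    rw [mem_image] at hn
    obtain ⟨k, hk, rfl⟩ := hn
    rw [mem_Ioc] at hk ⊢
    obtain ⟨k1, k2⟩ := hk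
    rw [Nat.div_lt_iff_lt_mul hM0] at k1
    rw [Nat.le_div_iff_mul_le hM0] at k2
    constructor
    · rw [mul_comm]; exact k1
    · rw [mul_comm]; exact k2
  have hsum : ∑ k ∈ Ioc (N / M) (2 * N / M), Real.exp (-(κ * L)) ≤
      ∑ n ∈ Ioc N (2 * N), ∏ m ∈ blk C n, (1 - q m) := by
    calc ∑ k ∈ Ioc (N / M) (2 * N / M), Real.exp (-(κ * L))
        ≤ ∑ k ∈ Ioc (N / M) (2 * N / M), ∏ m ∈ blk C (M * k), (1 - q m) := by
          apply sum_le_sum
          intro k hk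
          have h3 : M * k ∈ Ioc N (2 * N) := hsub (mem_image_of_mem _ hk)
          rw [mem_Ioc] at h3
          exact g1 (M * k) h3.1 h3.2 (dvd_mul_right M k)
      _ = ∑ n ∈ (Ioc (N / M) (2 * N / M)).image (fun k => M * k), ∏ m ∈ blk C n, (1 - q m) := by
          rw [sum_image]
          intro a _ b _ hab
          exact Nat.eq_of_mul_eq_mul_left hM0 hab
      _ ≤ _ := by
          apply sum_le_sum_of_subset_of_nonneg hsub
          intro n _ _
          exact prod_nn q (fun m => (q_le_one q T hq m).2) _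
  refine le_trans ?_ hsum
  rw [sum_const, Nat.card_Ioc, nsmul_eq_mul]
  have hcard : (N : ℝ) / M - 1 ≤ ((2 * N / M - N / M : ℕ) : ℝ) := by
    have k1 : N / M ≤ 2 * N / M := Nat.div_le_div_right (by omega)
    rw [Nat.cast_sub k1]
    have k2 : ((N / M : ℕ) : ℝ) ≤ (N : ℝ) / M := Nat.cast_div_le
    have k3 : ((2 * N : ℕ) : ℝ) / M - 1 ≤ ((2 * N / M : ℕ) : ℝ) := by
      have h4 := Nat.lt_div_mul_add (a := 2 * N) hM0
      have h5 : ((2 * N : ℕ) : ℝ) < ((2 * N / M : ℕ) : ℝ) * M + M := by exact_mod_cast h4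
      rw [sub_le_iff_le_add, div_le_iff₀ hMr]
      nlinarith
    push_cast at k3
    have k4 : 2 * (N : ℝ) / M = N / M + N / M := by ring
    linarith
  have hNe : (N : ℝ) = Real.exp L := by rw [hL, Real.exp_log hNr]
  have hdiv : Real.exp ((1 - (1 - κ) / 2) * L) ≤ (N : ℝ) / M := by
    rw [le_div_iff₀ hMr]
    calc Real.exp ((1 - (1 - κ) / 2) * L) * M ≤
          Real.exp ((1 - (1 - κ) / 2) * L) * Real.exp ((1 - κ) / 2 * L) := by gcongr
      _ = Real.exp L := by rw [← Real.exp_add]; congr 1; ring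
      _ = N := hNe.symm
  calc K ≤ Real.exp ((1 - κ) / 2 * L) - 1 := by linarith
    _ ≤ Real.exp ((1 - κ) / 2 * L) - Real.exp (-(κ * L)) := by
        have : Real.exp (-(κ * L)) ≤ 1 := Real.exp_le_one_iff.2 (by nlinarith)
        linarith
    _ = (Real.exp ((1 - (1 - κ) / 2) * L) - 1) * Real.exp (-(κ * L)) := by
        rw [sub_mul, one_mul, ← Real.exp_add]
        congr 2
        ring
    _ ≤ _ := by
        apply mul_le_mul_of_nonneg_right _ (Real.exp_pos _).le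
        linarith

/-- comparison with the harmonic series -/
theorem harm_div (f : ℕ → ℝ) (c : ℝ) (hc : 0 < c) (h : ∀ᶠ n : ℕ in atTop, c * (n : ℝ)⁻¹ ≤ f n) :
    ¬ Summable f := by
  intro hs
  have h1 : Summable (fun n : ℕ => c * (n : ℝ)⁻¹) := by
    refine Summable.of_norm_bounded_eventually_nat hs ?_
    filter_upwards [h] with n hn
    rw [Real.norm_of_nonneg (by positivity)]
    exact hn
  have h2 := h1.mul_left c⁻¹
  apply Real.not_summable_natCast_inv
  refine h2.congr (fun n => ?_)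
  rw [← mul_assoc, inv_mul_cancel₀ hc.ne', one_mul]

theorem pow_conv (f : ℕ → ℝ) (s : ℝ) (hs : 1 < s) (h0 : ∀ n, 0 ≤ f n)
    (h : ∀ᶠ n : ℕ in atTop, f n ≤ Real.exp (-(s * Real.log n))) : Summable f := by
  have h1 : Summable (fun n : ℕ => ((n : ℝ) ^ s)⁻¹) := Real.summable_nat_rpow_inv.2 hs
  refine Summable.of_norm_bounded_eventually_nat h1 ?_
  filter_upwards [h, eventually_gt_atTop 0] with n hn hn0
  have hn0' : (0 : ℝ) < n := by exact_mod_cast hn0
  rw [Real.norm_of_nonneg (h0 n)]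
  refine hn.trans (le_of_eq ?_)
  rw [Real.exp_neg, Real.rpow_def_of_pos hn0']
  congr 2
  ring

/-- sums over blocks for small sieves -/
theorem blk_sum (T : ℕ → ℕ) (hT : Monotone T)
    (hTs : ∀ θ : ℝ, 0 < θ → ∀ᶠ n : ℕ in atTop, (T n : ℝ) ≤ (Real.log n) ^ θ) (ε : ℝ) (hε : 0 < ε)
    (C : ℝ) (hC : 0 < C) : ∀ᶠ n : ℕ in atTop,
      |∑ m ∈ blk C n, fT T m - C * (Real.log n) ^ 2| ≤ ε * (C * (Real.log n) ^ 2) := by
  obtain ⟨θ, hθ, H⟩ := regular ε hε
  have h1 := H T hT (hTs θ hθ) (C / 4) (by positivity)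
  have h2 : Tendsto (fun n : ℕ => n ^ 2) atTop atTop := tendsto_pow_atTop (by norm_num)
  filter_upwards [h2.eventually h1] with n hn
  have h3 := hn (n ^ 2) le_rfl (by omega)
  have h4 : Real.log ((n ^ 2 : ℕ) : ℝ) = 2 * Real.log n := by
    push_cast
    rw [Real.log_pow]
    push_cast
    ring
  have h5 : C / 4 * (Real.log ((n ^ 2 : ℕ) : ℝ)) ^ 2 = C * (Real.log n) ^ 2 := by
    rw [h4]; ring
  have h6 : wn (C / 4) (n ^ 2) = ⌊C * (Real.log n) ^ 2⌋₊ := by
    unfold wn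
    rw [h5]
  rw [h6, h5] at h3
  exact h3

/-- sizes of the elements of a block -/
theorem blk_size (C : ℝ) (hC : 0 < C) (ε : ℝ) (hε : 0 < ε) : ∀ᶠ n : ℕ in atTop, ∀ m ∈ blk C n,
    n ≤ m ∧ 2 * Real.log n ≤ Real.log m ∧ Real.log m ≤ (1 + ε) * (2 * Real.log n) := by
  filter_upwards [log_sq_small C 2 hC (by norm_num), tlog.eventually_gt_atTop 1,
    tlog.eventually_gt_atTop (1 / (2 * ε)), eventually_ge_atTop 1] with n h1 h2 h3 h4
  intro m hm
  have hm' := mem_blk.1 hm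
  have hn0 : (1 : ℝ) ≤ n := by exact_mod_cast h4
  have hn2 : (n : ℝ) ^ (2 : ℝ) = (n : ℝ) ^ 2 := by norm_cast
  rw [hn2] at h1
  have k1 : (n : ℝ) ^ 2 < m := by exact_mod_cast hm'.1
  have k0 : (0 : ℝ) < (n : ℝ) ^ 2 := by positivity
  refine ⟨?_, ?_, ?_⟩
  · have : (n : ℝ) ≤ m := by nlinarith
    exact_mod_cast this
  · have := Real.log_le_log k0 k1.le
    rw [Real.log_pow] at this
    push_cast at this
    exact this
  · have k2 : (m : ℝ) ≤ 2 * (n : ℝ) ^ 2 := by linarith [hm'.2]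
    have k3 := Real.log_le_log (by linarith : (0 : ℝ) < m) k2
    rw [Real.log_mul (by norm_num) k0.ne', Real.log_pow] at k3
    push_cast at k3
    have k4 := Real.log_two_lt_d9
    rw [div_lt_iff₀ (by positivity)] at h3
    nlinarith

theorem small_conv (q : ℕ → ℝ) (T : ℕ → ℕ) (hT : Monotone T)
    (hTs : ∀ θ : ℝ, 0 < θ → ∀ᶠ n : ℕ in atTop, (T n : ℝ) ≤ (Real.log n) ^ θ)
    (hq : ∀ m : ℕ, q m = min 1 (fT T m / Real.log m)) (C : ℝ) (hC : 2 < C) :
    Summable (fun n => ∏ m ∈ blk C n, (1 - q m)) := by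
  have hC0 : 0 < C := by linarith
  obtain ⟨s, hs1, hs2⟩ : ∃ s, 1 < s ∧ s < C / 2 := exists_between (by linarith)
  obtain ⟨ε, hε, hε1, hεs⟩ : ∃ ε : ℝ, 0 < ε ∧ ε < 1 ∧ s * (1 + ε) ≤ C / 2 * (1 - ε) := by
    refine ⟨(C / 2 - s) / (C / 2 + s), by apply div_pos <;> linarith, ?_, ?_⟩
    · rw [div_lt_one (by linarith)]; linarith
    · have : 0 < C / 2 + s := by linarith
      have e1 : 1 + (C / 2 - s) / (C / 2 + s) = C / (C / 2 + s) := by field_simp; ring
      have e2 : 1 - (C / 2 - s) / (C / 2 + s) = 2 * s / (C / 2 + s) := by field_simp; ring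
      rw [e1, e2]
      apply le_of_eq
      ring
  have hsp := sub_pow T 1 (hTs 1 one_pos)
  obtain ⟨n₁, hn₁⟩ := eventually_atTop.1 (dens T hsp 1 one_pos)
  apply pow_conv _ s hs1 (fun n => prod_nn q (fun m => (q_le_one q T hq m).2) _)
  filter_upwards [blk_sum T hT hTs ε hε C hC0, blk_size C hC0 ε hε, tlog.eventually_gt_atTop 1,
    eventually_ge_atTop n₁] with n g1 g2 g3 g4
  have hL0 : 0 < Real.log n := by linarith
  have h1 : ∏ m ∈ blk C n, (1 - q m) ≤ Real.exp (-∑ m ∈ blk C n, q m) := by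
    rw [← sum_neg_distrib, Real.exp_sum]
    apply Finset.prod_le_prod
    · intro m _; linarith [(q_le_one q T hq m).2]
    · intro m _
      have := Real.add_one_le_exp (-q m)
      linarith
  refine h1.trans (Real.exp_le_exp.2 (neg_le_neg ?_))
  have h2 : (∑ m ∈ blk C n, fT T m) / ((1 + ε) * (2 * Real.log n)) ≤ ∑ m ∈ blk C n, q m := by
    rw [sum_div]
    apply sum_le_sum
    intro m hm
    obtain ⟨k1, k2, k3⟩ := g2 m hm
    rw [hq m, min_eq_right (hn₁ m (g4.trans k1))]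
    apply div_le_div_of_nonneg_left (fT_nonneg T m) (by linarith) k3
  refine le_trans ?_ h2
  rw [le_div_iff₀ (by positivity)]
  have h3 := (abs_le.1 g1).1
  have h4 : (1 - ε) * (C * (Real.log n) ^ 2) ≤ ∑ m ∈ blk C n, fT T m := by linarith
  refine le_trans ?_ h4
  have h5 : s * (1 + ε) * (2 * (Real.log n) ^ 2) ≤ C / 2 * (1 - ε) * (2 * (Real.log n) ^ 2) := by
    gcongr
  nlinarith

theorem small_div (q : ℕ → ℝ) (T : ℕ → ℕ) (hT : Monotone T)
    (hTs : ∀ θ : ℝ, 0 < θ → ∀ᶠ n : ℕ in atTop, (T n : ℝ) ≤ (Real.log n) ^ θ)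
    (hq : ∀ m : ℕ, q m = min 1 (fT T m / Real.log m)) (C : ℝ) (hC0 : 0 < C) (hC : C < 2) :
    ¬ Summable (fun n => ∏ m ∈ blk C n, (1 - q m)) := by
  obtain ⟨ε, hε, hε1, hεs⟩ : ∃ ε : ℝ, 0 < ε ∧ ε ≤ 1 / 2 ∧ C / 2 * (1 + ε) * (1 + ε) ≤ 1 := by
    refine ⟨min (1 / 2) ((2 - C) / 4), lt_min (by norm_num) (by linarith), min_le_left _ _, ?_⟩
    have h1 := min_le_right (1 / 2) ((2 - C) / 4)
    have h0 : 0 < min (1 / 2) ((2 - C) / 4) := lt_min (by norm_num) (by linarith)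
    have h2 := min_le_left (1 / 2) ((2 - C) / 4)
    obtain ⟨e, he⟩ : ∃ e, e = min (1 / 2) ((2 - C) / 4) := ⟨_, rfl⟩
    rw [← he] at h0 h1 h2 ⊢
    have h3 : C ≤ 2 - 4 * e := by linarith
    have h4 : C / 2 * (1 + e) * (1 + e) ≤ (1 - 2 * e) * (1 + e) * (1 + e) := by gcongr; linarith
    refine h4.trans ?_
    nlinarith [mul_pos h0 h0, mul_pos (mul_pos h0 h0) h0]
  have hsp := sub_pow T 1 (hTs 1 one_pos)
  obtain ⟨n₁, hn₁⟩ := eventually_atTop.1 (rho_small T hsp ε hε)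
  obtain ⟨n₂, hn₂⟩ := eventually_atTop.1 (dens T hsp 1 one_pos)
  apply harm_div _ 1 one_pos
  filter_upwards [blk_sum T hT hTs ε hε C hC0, blk_size C hC0 ε hε, tlog.eventually_gt_atTop 1,
    eventually_ge_atTop (max n₁ n₂), eventually_ge_atTop 1] with n g1 g2 g3 g4 g5
  have hL0 : 0 < Real.log n := by linarith
  have hn0 : (0 : ℝ) < n := by exact_mod_cast g5
  have hqr : ∀ m ∈ blk C n, q m = fT T m / Real.log m ∧ 0 ≤ q m ∧ 2 * q m ≤ ε := by
    intro m hm
    obtain ⟨k1, k2, k3⟩ := g2 m hm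
    have e1 : q m = fT T m / Real.log m := by
      rw [hq m, min_eq_right (hn₂ m ((le_max_right _ _).trans (g4.trans k1)))]
    have := hn₁ m ((le_max_left _ _).trans (g4.trans k1))
    rw [e1]
    exact ⟨rfl, this.1, this.2⟩
  have h1 : Real.exp (-((1 + ε) * ∑ m ∈ blk C n, q m)) ≤ ∏ m ∈ blk C n, (1 - q m) := by
    rw [mul_sum, ← sum_neg_distrib, Real.exp_sum]
    apply Finset.prod_le_prod
    · intro m _; positivity
    · intro m hm
      obtain ⟨k1, k2, k3⟩ := hqr m hm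
      refine le_trans (Real.exp_le_exp.2 ?_) (one_sub_ge (q m) k2 (by linarith))
      nlinarith
  refine le_trans ?_ h1
  have h2 : ∑ m ∈ blk C n, q m ≤ (∑ m ∈ blk C n, fT T m) / (2 * Real.log n) := by
    rw [sum_div]
    apply sum_le_sum
    intro m hm
    obtain ⟨k1, k2, k3⟩ := g2 m hm
    rw [(hqr m hm).1]
    apply div_le_div_of_nonneg_left (fT_nonneg T m) (by linarith) k2
  have h3 := (abs_le.1 g1).2
  have h4 : ∑ m ∈ blk C n, q m ≤ C / 2 * (1 + ε) * Real.log n := by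
    refine h2.trans ?_
    rw [div_le_iff₀ (by positivity)]
    nlinarith
  have h5 : (1 + ε) * ∑ m ∈ blk C n, q m ≤ Real.log n := by
    calc (1 + ε) * ∑ m ∈ blk C n, q m ≤ (1 + ε) * (C / 2 * (1 + ε) * Real.log n) := by gcongr
      _ = (C / 2 * (1 + ε) * (1 + ε)) * Real.log n := by ring
      _ ≤ 1 * Real.log n := by gcongr
      _ = Real.log n := one_mul _
  rw [one_mul]
  calc (n : ℝ)⁻¹ = Real.exp (-Real.log n) := by rw [Real.exp_neg, Real.exp_log hn0]
    _ ≤ _ := Real.exp_le_exp.2 (neg_le_neg h5)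

theorem fT_zero (m : ℕ) : fT (fun _ => 0) m = 1 := by
  unfold fT W
  rw [if_pos]
  · simp
  · intro p hp h
    have := hp.pos
    have h' : p ≤ 0 := h
    omega

/-- Cramér's model, `C = 2` -/
theorem cramer_two (q : ℕ → ℝ) (hq : ∀ m : ℕ, q m = min 1 (fT (fun _ => 0) m / Real.log m)) :
    ¬ Summable (fun n => ∏ m ∈ blk 2 n, (1 - q m)) := by
  apply harm_div _ (Real.exp (-1)) (Real.exp_pos _)
  filter_upwards [blk_size 2 (by norm_num) 1 one_pos, tlog.eventually_gt_atTop 1,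
    eventually_ge_atTop 1] with n g1 g2 g3
  have hn0 : (0 : ℝ) < n := by exact_mod_cast g3
  have hL0 : 0 < Real.log n := by linarith
  obtain ⟨p, hp⟩ : ∃ p, p = 1 / (2 * Real.log n) := ⟨_, rfl⟩
  have hp0 : 0 < p := by rw [hp]; positivity
  have hlow := prod_low q (blk 2 n) (blk 2 n) p hp0.le ?_ ?_ ?_
  · refine le_trans ?_ hlow
    have hcard : ((blk 2 n).card : ℝ) ≤ 2 * (Real.log n) ^ 2 := by
      unfold blk
      rw [Nat.card_Ioc, Nat.add_sub_cancel_left]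
      exact Nat.floor_le (by positivity)
    calc Real.exp (-1) * (n : ℝ)⁻¹ = Real.exp (-(1 + Real.log n)) := by
          rw [neg_add, Real.exp_add, Real.exp_neg (Real.log n), Real.exp_log hn0]
      _ ≤ _ := by
          apply Real.exp_le_exp.2
          apply neg_le_neg
          calc (p + 2 * p ^ 2) * ((blk 2 n).card : ℝ) ≤ (p + 2 * p ^ 2) * (2 * (Real.log n) ^ 2) := by
                gcongr
            _ = 1 + Real.log n := by
                rw [hp]; field_simp; ring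
  · rw [hp]
    apply one_div_le_one_div_of_le (by norm_num) (by linarith)
  · intro m hm hm2
    exact absurd hm hm2
  · intro m hm
    obtain ⟨k1, k2, k3⟩ := g1 m hm
    refine ⟨(q_le_one q _ hq m).1, ?_⟩
    rw [hq m, fT_zero, hp]
    refine (min_le_right _ _).trans ?_
    exact one_div_le_one_div_of_le (by linarith) k2

end Pool.Agent.U746.GM
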